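import Mathlib

namespace Pool.Agent.MP_c78e8e_al

/-- `G` is generated by `n` pairwise distinct, pairwise conjugate involutions, two of which
commute. -/
def Good (G : Type*) [Group G] (n : ℕ) : Prop :=
  ∃ t : Fin n → G, Function.Injective t ∧ (∀ i, orderOf (t i) = 2) ∧
    Subgroup.closure (Set.range t) = ⊤ ∧ (∀ i j, IsConj (t i) (t j)) ∧
    ∃ i j, i ≠ j ∧ t i * t j = t j * t i

end Pool.Agent.MP_c78e8e_al
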