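import Pool.Agent.MP_c78e8e_al.Defs

namespace Pool.Agent.MP_c78e8e_al

open Subgroup

theorem solvable_of_two {G : Type*} [Group G] (a b : G) (ha : a * a = 1) (hb : b * b = 1)
    (h : closure ({a, b} : Set G) = ⊤) : Group.IsSolvable G := by
  have ha' : a⁻¹ = a := inv_eq_of_mul_eq_one_right ha
  have hb' : b⁻¹ = b := inv_eq_of_mul_eq_one_right hb
  set R := zpowers (a * b) with hR
  have hinv : (a * b)⁻¹ = b * a := by rw [mul_inv_rev, ha', hb']
  have key : ∀ x ∈ ({a, b} : Set G), x * (a * b) * x⁻¹ = (a * b)⁻¹ := by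
    rintro x (rfl | rfl)
    · rw [hinv, ha', ← mul_assoc, ha, one_mul]
    · rw [hinv, hb', mul_assoc, mul_assoc, hb, mul_one]
  have hn : R.Normal := by
    rw [← normalizer_eq_top_iff, eq_top_iff, ← h, closure_le]
    intro x hx
    have hx2 : x * x = 1 := by rcases hx with rfl | rfl <;> assumption
    have hx' : x⁻¹ = x := inv_eq_of_mul_eq_one_right hx2
    have h1 : ∀ y ∈ R, x * y * x⁻¹ ∈ R := by
      rintro y ⟨k, rfl⟩
      have : x * (a * b) ^ k * x⁻¹ = (x * (a * b) * x⁻¹) ^ k := by
        rw [conj_zpow]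
      simp only
      rw [this, key x hx]
      exact R.zpow_mem (R.inv_mem (mem_zpowers _)) k
    intro y
    refine ⟨h1 y, fun hy => ?_⟩
    have := h1 _ hy
    rwa [hx', ← mul_assoc, ← mul_assoc, hx2, one_mul, mul_assoc, hx2, mul_one] at this
  have hq : ∀ x y : G ⧸ R, x * y = y * x := by
    have hab : (QuotientGroup.mk a : G ⧸ R) = QuotientGroup.mk b := by
      rw [QuotientGroup.eq, ha']; exact mem_zpowers _
    have hcl : ∀ g : G, (QuotientGroup.mk g : G ⧸ R) ∈ zpowers (QuotientGroup.mk a : G ⧸ R) := by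
      intro g
      have hg : g ∈ closure ({a, b} : Set G) := h ▸ mem_top g
      have : closure ({a, b} : Set G) ≤
          (zpowers (QuotientGroup.mk a : G ⧸ R)).comap (QuotientGroup.mk' R) := by
        rw [closure_le]
        rintro x (rfl | rfl)
        · exact mem_zpowers _
        · simp [← hab]
      exact this hg
    intro x y
    obtain ⟨x, rfl⟩ := QuotientGroup.mk_surjective x
    obtain ⟨y, rfl⟩ := QuotientGroup.mk_surjective y
    obtain ⟨k, hk⟩ := hcl x
    obtain ⟨l, hl⟩ := hcl y
    simp only at hk hl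
    rw [← hk, ← hl, ← zpow_add, ← zpow_add, add_comm]
  have : Group.IsSolvable (G ⧸ R) := Group.isSolvable_of_comm hq
  have : Group.IsSolvable R := Group.isSolvable_of_comm (fun x y => by
    obtain ⟨x, k, rfl⟩ := x
    obtain ⟨y, l, rfl⟩ := y
    ext
    simp [← zpow_add, add_comm])
  exact Group.isSolvable_of_ker_le_range R.subtype (QuotientGroup.mk' R) (by simp)

theorem three_le_of_good {G : Type*} [Group G] (hG : ¬ Group.IsSolvable G) {n : ℕ} (h : Good G n) :
    3 ≤ n := by
  obtain ⟨t, -, ho, hc, -, i, j, hij, -⟩ := h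
  by_contra hn
  have hsq : ∀ k, t k * t k = 1 := fun k => by rw [← pow_two, ← ho k, pow_orderOf_eq_one]
  apply hG
  apply solvable_of_two (t i) (t j) (hsq i) (hsq j)
  rw [← hc]
  congr 1
  ext x
  constructor
  · rintro (rfl | rfl) <;> exact ⟨_, rfl⟩
  · rintro ⟨k, rfl⟩
    have : k = i ∨ k = j := by
      have := i.2; have := j.2; have := k.2
      have : i.1 ≠ j.1 := fun h => hij (Fin.ext h)
      simp only [Fin.ext_iff]; omega
    rcases this with rfl | rfl <;> simp

theorem isLeast_three {G : Type*} [Group G] (hG : ¬ Group.IsSolvable G) (a b c : G)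
    (ha : a * a = 1) (hab : IsConj a b) (hac : IsConj a c) (hcomm : a * b = b * a)
    (hgen : closure ({a, b, c} : Set G) = ⊤) : IsLeast {n | Good G n} 3 := by
  refine ⟨?_, fun n hn => three_le_of_good hG hn⟩
  have hsq : ∀ x, IsConj a x → x * x = 1 := by
    intro x hx
    obtain ⟨g, rfl⟩ := isConj_iff.1 hx
    calc g * a * g⁻¹ * (g * a * g⁻¹) = g * (a * a) * g⁻¹ := by group
      _ = 1 := by rw [ha]; group
  have hb := hsq b hab
  have hc := hsq c hac
  have nab : a ≠ b := by
    rintro rfl
    exact hG (solvable_of_two a c ha hc (by simpa using hgen))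
  have nac : a ≠ c := by
    rintro rfl
    refine hG (solvable_of_two a b ha hb ?_)
    rw [← hgen]; congr 1; ext x; simp; tauto
  have nbc : b ≠ c := by
    rintro rfl
    exact hG (solvable_of_two a b ha hb (by simpa using hgen))
  have n1 : a ≠ 1 := by
    rintro rfl
    exact nab (isConj_one_right.1 hab).symm
  have ho : ∀ x, IsConj a x → orderOf x = 2 := by
    intro x hx
    apply orderOf_eq_prime (by rw [pow_two]; exact hsq x hx)
    rintro rfl
    exact n1 (isConj_one_left.1 hx)
  have hall : ∀ i : Fin 3, IsConj a (![a, b, c] i) := by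
    intro i; fin_cases i
    · exact IsConj.refl a
    · exact hab
    · exact hac
  refine ⟨![a, b, c], ?_, fun i => ho _ (hall i), ?_, fun i j => (hall i).symm.trans (hall j),
    0, 1, by decide, hcomm⟩
  · intro i j hij
    fin_cases i <;> fin_cases j <;> simp_all [eq_comm]
  · rw [← hgen]; congr 1; ext x; simp [Fin.exists_fin_succ]; tauto

theorem isLeast_three_quot {G : Type*} [Group G] (hG : ¬ Group.IsSolvable G) (a b c : G)
    (ha : a * a = 1) (hab : IsConj a b) (hac : IsConj a c) (hcomm : a * b = b * a)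
    (hgen : closure ({a, b, c} : Set G) = ⊤) : IsLeast {n | Good (G ⧸ center G) n} 3 := by
  let f := QuotientGroup.mk' (center G)
  have hf : Function.Surjective f := QuotientGroup.mk'_surjective _
  refine isLeast_three ?_ (f a) (f b) (f c) (by rw [← map_mul, ha, map_one])
    (f.map_isConj hab) (f.map_isConj hac) (by rw [← map_mul, hcomm, map_mul]) ?_
  · intro hs
    have : Group.IsSolvable (center G) := Group.isSolvable_of_comm (fun x y => Subtype.ext (mem_center_iff.1 y.2 x.1))
    exact hG (Group.isSolvable_of_ker_le_range (center G).subtype f (by simp [f]))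
  · have := congrArg (Subgroup.map f) hgen
    rw [MonoidHom.map_closure, Subgroup.map_top_of_surjective f hf] at this
    rw [← this]; congr 1; ext x; simp [Set.image_insert_eq]

theorem not_solvable_of_alt {G ι : Type*} [Group G] [Fintype ι] [DecidableEq ι]
    (hι : 5 ≤ Fintype.card ι) (f : alternatingGroup ι →* G) (hf : Function.Injective f) :
    ¬ Group.IsSolvable G := by
  intro hs
  have : Group.IsSolvable (alternatingGroup ι) := Group.isSolvable_of_isSolvable_injective hf
  have : Group.IsSolvable ℤˣ := Group.isSolvable_of_comm mul_comm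
  refine Equiv.Perm.not_isSolvable ι ?_
    (Group.isSolvable_of_ker_le_range (alternatingGroup ι).subtype Equiv.Perm.sign ?_)
  · rw [Cardinal.mk_fintype]; exact_mod_cast hι
  · intro x hx; exact ⟨⟨x, hx⟩, rfl⟩

end Pool.Agent.MP_c78e8e_al
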